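import Pool.Agent.Lead.ContDefs

namespace Pool.Agent.Results.MP_2fbd40_lc.Q1

open Pool.Agent.Lead.Cont FirstOrder FirstOrder.Language

/-- Open points `inl i`; the point `inr j` lies in the closure of `inl i` for `i ∈ S j`. -/
def Sp {I J : Type} (_S : J → Set I) : Type := I ⊕ J

variable {I J J' : Type} {S : J → Set I} {S' : J' → Set I}

instance : TopologicalSpace (Sp S) where
  IsOpen U := ∀ j, Sum.inr j ∈ U → ∀ i ∈ S j, Sum.inl i ∈ U
  isOpen_univ := fun _ _ _ _ => trivial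
  isOpen_inter := fun _ _ h1 h2 j h i hi => ⟨h1 j h.1 i hi, h2 j h.2 i hi⟩
  isOpen_sUnion := fun _ h j ⟨U, hU, hj⟩ i hi => ⟨U, hU, h U hU j hj i hi⟩

def Ph (S : J → Set I) (A : Set I) : Set (Sp S) :=
  fun x => match x with
    | .inl i => i ∈ A
    | .inr j => (S j ∩ A).Nonempty

def tr (a : Set (Sp S)) : Set I := {i | Sum.inl i ∈ a}

lemma tr_Ph (A : Set I) : tr (Ph S A) = A := rfl

lemma op_inl (i : I) : IsOpen ({Sum.inl i} : Set (Sp S)) := fun _ h => by cases h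

lemma tr_int (a : Set (Sp S)) : tr (interior a) = tr a := by
  ext i
  exact ⟨fun h => interior_subset (s := a) h, fun h => interior_maximal (s := a)
    (t := {Sum.inl i}) (Set.singleton_subset_iff.2 h) (op_inl i) rfl⟩

lemma tr_cl (a : Set (Sp S)) : tr (closure a) = tr a := by
  ext i
  refine ⟨fun h => ?_, fun h => subset_closure h⟩
  obtain ⟨_, rfl, h⟩ := mem_closure_iff.1 h _ (op_inl i) rfl
  exact h

lemma cl_open (hS : ∀ j, (S j).Nonempty) {a : Set (Sp S)} (ha : IsOpen a) :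
    closure a = Ph S (tr a) := by
  ext x
  cases x with
  | inl i => exact Set.ext_iff.1 (tr_cl a) i
  | inr j =>
    constructor
    · intro h
      obtain ⟨y, hy, hya⟩ := mem_closure_iff.1 h ({Sum.inr j} ∪ Sum.inl '' S j : Set (I ⊕ J))
        (fun k hk i hi => by
          obtain rfl : k = j := by
            rcases hk with hk | ⟨_, _, hk⟩
            · exact Sum.inr.inj hk
            · cases hk
          exact Or.inr ⟨i, hi, rfl⟩) (Or.inl rfl)
      rcases hy with rfl | ⟨i, hi, rfl⟩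
      · obtain ⟨i, hi⟩ := hS j
        exact ⟨i, hi, ha j hya i hi⟩
      · exact ⟨i, hi, hya⟩
    · rintro ⟨i, hi, hia⟩
      exact mem_closure_iff.2 fun U hU hj => ⟨_, hU j hj i hi, hia⟩

lemma rc_eq (hS : ∀ j, (S j).Nonempty) (a : RC (Sp S)) : a.1 = Ph S (tr a.1) := by
  conv_lhs => rw [← a.2]
  rw [cl_open hS isOpen_interior, tr_int]

def mk (hS : ∀ j, (S j).Nonempty) (A : Set I) : RC (Sp S) :=
  ⟨Ph S A, by rw [cl_open hS isOpen_interior, tr_int, tr_Ph]⟩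

lemma rc_ext (hS : ∀ j, (S j).Nonempty) {a b : RC (Sp S)} (h : tr a.1 = tr b.1) : a = b :=
  Subtype.ext (by rw [rc_eq hS a, rc_eq hS b, h])

lemma contact (hS : ∀ j, (S j).Nonempty) (hS2 : ∀ i k, ∃ j, i ∈ S j ∧ k ∈ S j)
    (a b : RC (Sp S)) : (a.1 ∩ b.1).Nonempty ↔ (tr a.1).Nonempty ∧ (tr b.1).Nonempty := by
  rw [rc_eq hS a, rc_eq hS b, tr_Ph, tr_Ph]
  constructor
  · rintro ⟨i | j, h1, h2⟩
    · exact ⟨⟨i, h1⟩, ⟨i, h2⟩⟩
    · exact ⟨h1.mono Set.inter_subset_right, h2.mono Set.inter_subset_right⟩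
  · rintro ⟨⟨i, hi⟩, ⟨k, hk⟩⟩
    obtain ⟨j, h1, h2⟩ := hS2 i k
    exact ⟨.inr j, ⟨i, h1, hi⟩, ⟨k, h2, hk⟩⟩

def iso (hS : ∀ j, (S j).Nonempty) (hS2 : ∀ i k, ∃ j, i ∈ S j ∧ k ∈ S j)
    (hS' : ∀ j, (S' j).Nonempty) (hS2' : ∀ i k, ∃ j, i ∈ S' j ∧ k ∈ S' j) :
    RC (Sp S) ≃[LC] RC (Sp S') where
  toFun a := mk hS' (tr a.1)
  invFun a := mk hS (tr a.1)
  left_inv _ := rc_ext hS rfl
  right_inv _ := rc_ext hS' rfl
  map_fun' := by
    intro n f v
    apply rc_ext hS'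
    cases f with
    | zero => rfl
    | one => rfl
    | star => exact (tr_cl _).trans (tr_cl (S := S') (Ph S' (tr (v 0).1))ᶜ).symm
    | mul =>
      exact ((tr_cl _).trans (tr_int _)).trans ((tr_cl (S := S') _).trans
        (tr_int (Ph S' (tr (v 0).1) ∩ Ph S' (tr (v 1).1)))).symm
    | add => rfl
  map_rel' := by
    intro n r v
    cases r
    exact (contact hS' hS2' _ _).trans (contact hS hS2 _ _).symm

theorem result (n : ℕ) (hn : 3 ≤ n) : ¬ ∃ φ : LC.Formula (Fin n),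
    ∀ (X : Type) [TopologicalSpace X] (a : Fin n → RC X),
      φ.Realize a ↔ (⋂ i, (a i).1).Nonempty := by
  rintro ⟨φ, h⟩
  let S : Fin n × Fin n → Set (Fin n) := fun p => {p.1, p.2}
  let S' : Unit → Set (Fin n) := fun _ => Set.univ
  have hS : ∀ j, (S j).Nonempty := fun j => ⟨j.1, Or.inl rfl⟩
  have hS' : ∀ j, (S' j).Nonempty := fun _ => ⟨⟨0, by omega⟩, trivial⟩
  let e := iso hS (fun i k => ⟨(i, k), Or.inl rfl, Or.inr rfl⟩) hS' (fun _ _ => ⟨(), trivial, trivial⟩)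
  have h1 := (h _ (e ∘ fun i => mk hS {i})).2
    ⟨.inr (), Set.mem_iInter.2 fun i => ⟨i, trivial, rfl⟩⟩
  rw [StrongHomClass.realize_formula] at h1
  obtain ⟨x, hx⟩ := (h _ _).1 h1
  rw [Set.mem_iInter] at hx
  have h0 := hx ⟨0, by omega⟩
  have h1 := hx ⟨1, by omega⟩
  have h2 := hx ⟨2, by omega⟩
  rcases x with i | ⟨i, k⟩
  · have := (show i = _ from h0).symm.trans (show i = _ from h1)
    simp at this
  · obtain ⟨_, h0, rfl⟩ := h0
    obtain ⟨_, h1, rfl⟩ := h1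
    obtain ⟨_, h2, rfl⟩ := h2
    simp only [S, Set.mem_insert_iff, Set.mem_singleton_iff, Fin.ext_iff] at h0 h1 h2
    omega

end Pool.Agent.Results.MP_2fbd40_lc.Q1
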